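import Mathlib

set_option autoImplicit false

namespace Pool.Agent.H252Z.Hayashi

/-- coefficient of the acting element -/
def lam (t : ZMod 3) : ℤ := if t = 0 then 2 else -1

/-- the cocycle -/
def mu (t : ZMod 3) : ℤ := if t = 0 then 0 else if t = 1 then -1 else 1

/-- fibre operation -/
def F {R : Type} [CommRing R] (t : ZMod 3) (d c : R) : R := -c + (lam t : R) * d + (mu t : R)

lemma zmod3 (t : ZMod 3) : t = 0 ∨ t = 1 ∨ t = 2 := by
  revert t
  decide

lemma lam0 : lam 0 = 2 := by decide
lemma lam1 : lam 1 = -1 := by decide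
lemma lam2 : lam 2 = -1 := by decide
lemma mu0 : mu 0 = 0 := by decide
lemma mu1 : mu 1 = -1 := by decide
lemma mu2 : mu 2 = 1 := by decide

lemma coeffs : ∀ i j k : ZMod 3,
    lam (2 * i - k - j) = lam (i - k) * lam (i - j) - lam (k - j) ∧
    lam (k - i) = lam (i - k) ∧
    mu (2 * i - k - j) - mu (k - i) = lam (i - k) * mu (i - j) + mu (i - k) - mu (k - j) := by
  decide

lemma F_sd {R : Type} [CommRing R] (i j k s t : ZMod 3) (d c e : R)
    (hs : s = 2 * i - k - j) (ht : t = i - k) :
    F s d (F (k - i) c e) = F t (F (i - j) d c) (F (k - j) d e) := by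
  subst hs ht
  obtain ⟨h1, h2, h3⟩ := coeffs i j k
  have h1' := congrArg (Int.cast : ℤ → R) h1
  have h2' := congrArg (Int.cast : ℤ → R) h2
  have h3' := congrArg (Int.cast : ℤ → R) h3
  push_cast at h1' h2' h3'
  unfold F
  linear_combination d * h1' - c * h2' + h3'

lemma F_inv {R : Type} [CommRing R] (s t : ZMod 3) (d c : R) (h : s = t) :
    F s d (F t d c) = c := by
  subst h
  unfold F
  ring

lemma lam_neg : ∀ t : ZMod 3, lam (-t) = lam t ∧ mu (-t) = - mu t := by decide

lemma F_sq {R : Type} [CommRing R] (s t : ZMod 3) (d c : R) (h : s = -t) :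
    F s d (F t d c) = c - 2 * (mu t : R) := by
  subst h
  obtain ⟨h1, h2⟩ := lam_neg t
  unfold F
  rw [h1, h2]
  push_cast
  ring

lemma F_fix {R : Type} [CommRing R] (s : ZMod 3) (d : R) (h : s = 0) : F s d d = d := by
  subst h
  unfold F
  rw [lam0, mu0]
  push_cast
  ring

/-- the underlying set of the quandle -/
@[ext]
structure Q where
  a : ZMod 3
  b : ZMod 3
  c1 : ZMod 5
  c2 : ZMod 7
  c3 : ZMod 11
  c4 : ZMod 13

/-- coordinates -/
def toProd (x : Q) : ZMod 3 × ZMod 3 × ZMod 5 × ZMod 7 × ZMod 11 × ZMod 13 :=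
  (x.a, x.b, x.c1, x.c2, x.c3, x.c4)

lemma toProd_inj : Function.Injective toProd := by
  intro x y h
  simp only [toProd, Prod.mk.injEq] at h
  obtain ⟨h1, h2, h3, h4, h5, h6⟩ := h
  exact Q.ext h1 h2 h3 h4 h5 h6

instance : Finite Q := Finite.of_injective toProd toProd_inj

/-- the operation -/
def op (x y : Q) : Q :=
  ⟨2 * x.a - y.a, 2 * x.b - y.b, F (y.a - x.a) x.c1 y.c1, F (y.b - x.b) x.c2 y.c2,
    F ((y.a + y.b) - (x.a + x.b)) x.c3 y.c3, F ((y.a - y.b) - (x.a - x.b)) x.c4 y.c4⟩

/-- the inverse operation -/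
def opInv (x y : Q) : Q :=
  ⟨2 * x.a - y.a, 2 * x.b - y.b, F (x.a - y.a) x.c1 y.c1, F (x.b - y.b) x.c2 y.c2,
    F ((x.a + x.b) - (y.a + y.b)) x.c3 y.c3, F ((x.a - x.b) - (y.a - y.b)) x.c4 y.c4⟩

lemma op_sd (x y z : Q) : op x (op y z) = op (op x y) (op x z) := by
  apply Q.ext
  · simp only [op]; ring
  · simp only [op]; ring
  · exact F_sd y.a x.a z.a _ _ _ _ _ (by simp only [op]) (by simp only [op]; ring)
  · exact F_sd y.b x.b z.b _ _ _ _ _ (by simp only [op]) (by simp only [op]; ring)
  · exact F_sd (y.a + y.b) (x.a + x.b) (z.a + z.b) _ _ _ _ _ (by simp only [op]; ring)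
      (by simp only [op]; ring)
  · exact F_sd (y.a - y.b) (x.a - x.b) (z.a - z.b) _ _ _ _ _ (by simp only [op]; ring)
      (by simp only [op]; ring)

lemma op_left (x y : Q) : opInv x (op x y) = y := by
  apply Q.ext
  · simp only [op, opInv]; ring
  · simp only [op, opInv]; ring
  · exact F_inv _ _ _ _ (by simp only [op]; ring)
  · exact F_inv _ _ _ _ (by simp only [op]; ring)
  · exact F_inv _ _ _ _ (by simp only [op]; ring)
  · exact F_inv _ _ _ _ (by simp only [op]; ring)

lemma op_right (x y : Q) : op x (opInv x y) = y := by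
  apply Q.ext
  · simp only [op, opInv]; ring
  · simp only [op, opInv]; ring
  · exact F_inv _ _ _ _ (by simp only [opInv]; ring)
  · exact F_inv _ _ _ _ (by simp only [opInv]; ring)
  · exact F_inv _ _ _ _ (by simp only [opInv]; ring)
  · exact F_inv _ _ _ _ (by simp only [opInv]; ring)

lemma op_fix (x : Q) : op x x = x := by
  apply Q.ext
  · simp only [op]; ring
  · simp only [op]; ring
  · exact F_fix _ _ (by ring)
  · exact F_fix _ _ (by ring)
  · exact F_fix _ _ (by ring)
  · exact F_fix _ _ (by ring)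

instance quandle : Quandle Q where
  act := op
  self_distrib := fun {x y z} => op_sd x y z
  invAct := opInv
  left_inv := op_left
  right_inv := op_right
  fix := fun {x} => op_fix x

lemma act_eq (x y : Q) : Shelf.act x y = op x y := rfl

lemma op_op (x y : Q) : op x (op x y) =
    ⟨y.a, y.b, y.c1 - 2 * (mu (y.a - x.a) : ZMod 5), y.c2 - 2 * (mu (y.b - x.b) : ZMod 7),
      y.c3 - 2 * (mu ((y.a + y.b) - (x.a + x.b)) : ZMod 11),
      y.c4 - 2 * (mu ((y.a - y.b) - (x.a - x.b)) : ZMod 13)⟩ := by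
  apply Q.ext
  · simp only [op]; ring
  · simp only [op]; ring
  · exact F_sq _ _ _ _ (by simp only [op]; ring)
  · exact F_sq _ _ _ _ (by simp only [op]; ring)
  · exact F_sq _ _ _ _ (by simp only [op]; ring)
  · exact F_sq _ _ _ _ (by simp only [op]; ring)

lemma iter (x y : Q) (n : ℕ) : (op x)^[2 * n] y =
    ⟨y.a, y.b, y.c1 - 2 * n * (mu (y.a - x.a) : ZMod 5),
      y.c2 - 2 * n * (mu (y.b - x.b) : ZMod 7),
      y.c3 - 2 * n * (mu ((y.a + y.b) - (x.a + x.b)) : ZMod 11),
      y.c4 - 2 * n * (mu ((y.a - y.b) - (x.a - x.b)) : ZMod 13)⟩ := by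
  induction n with
  | zero => simp
  | succ n ih =>
    rw [show 2 * (n + 1) = 2 * n + 1 + 1 by ring, Function.iterate_succ_apply',
      Function.iterate_succ_apply', ih, op_op]
    apply Q.ext
    · rfl
    · rfl
    all_goals
      push_cast
      ring

/-- the base point -/
def o : Q := ⟨0, 0, 0, 0, 0, 0⟩

/-- the orbit relation -/
def E (y z : Q) : Prop := Relation.EqvGen (fun a b : Q => ∃ x : Q, Shelf.act x a = b) y z

lemma E_iter (x y : Q) (n : ℕ) : E y ((op x)^[n] y) := by
  induction n with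
  | zero => exact Relation.EqvGen.refl _
  | succ n ih =>
    refine Relation.EqvGen.trans _ _ _ ih (Relation.EqvGen.rel _ _ ⟨x, ?_⟩)
    rw [Function.iterate_succ_apply']
    rfl

lemma E_o (y : Q) : E y o := by
  have h3 : (3 : ZMod 3) = 0 := by decide
  have s1 : ∃ c1 c2 c3 c4, E y ⟨0, 0, c1, c2, c3, c4⟩ := by
    have := E_iter ⟨2 * y.a, 2 * y.b, 0, 0, 0, 0⟩ y 1
    simp only [Function.iterate_one, op] at this
    rw [show 2 * (2 * y.a) - y.a = 0 by linear_combination y.a * h3,
      show 2 * (2 * y.b) - y.b = 0 by linear_combination y.b * h3] at this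
    exact ⟨_, _, _, _, this⟩
  obtain ⟨c1, c2, c3, c4, s1⟩ := s1
  have s2 : E ⟨0, 0, c1, c2, c3, c4⟩ ⟨0, 0, 0, c2, 0, 0⟩ := by
    have := E_iter ⟨-1, 0, 0, 0, 0, 0⟩ ⟨0, 0, c1, c2, c3, c4⟩
      (2 * (143 * (-c1).val + 325 * (-c3).val + 605 * (-c4).val))
    rw [iter] at this
    simp only [zero_sub, neg_neg, add_zero, sub_zero, mu0, mu1] at this
    push_cast at this
    simp only [ZMod.natCast_val, ZMod.cast_id', id_eq] at this
    have e5 : (5 : ZMod 5) = 0 := by decide
    have e11 : (11 : ZMod 11) = 0 := by decide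
    have e13 : (13 : ZMod 13) = 0 := by decide
    convert this using 2
    · linear_combination (57 * c1 - 130 * ((-c3).cast : ZMod 5) - 242 * ((-c4).cast : ZMod 5)) * e5
    · ring
    · linear_combination (59 * c3 - 26 * ((-c1).cast : ZMod 11) - 110 * ((-c4).cast : ZMod 11)) * e11
    · linear_combination (93 * c4 - 22 * ((-c1).cast : ZMod 13) - 50 * ((-c3).cast : ZMod 13)) * e13
  have s3 : E ⟨0, 0, 0, c2, 0, 0⟩ o := by
    have := E_iter ⟨0, -1, 0, 0, 0, 0⟩ ⟨0, 0, 0, c2, 0, 0⟩ (2 * (858 * (-c2).val))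
    rw [iter] at this
    have m : mu (-1) = 1 := by decide
    simp only [zero_sub, neg_neg, add_zero, zero_add, sub_zero, mu0, mu1, m] at this
    push_cast at this
    simp only [ZMod.natCast_val, ZMod.cast_id', id_eq] at this
    have e7 : (7 : ZMod 7) = 0 := by decide
    have e11 : (11 : ZMod 11) = 0 := by decide
    have e13 : (13 : ZMod 13) = 0 := by decide
    unfold o
    convert this using 2
    · ring
    · linear_combination (245 * c2) * e7
    · linear_combination (-156 * ((-c2).cast : ZMod 11)) * e11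
    · linear_combination (132 * ((-c2).cast : ZMod 13)) * e13
  exact Relation.EqvGen.trans _ _ _ s1 (Relation.EqvGen.trans _ _ _ s2 s3)

theorem connected (y z : Q) :
    Relation.EqvGen (fun a b : Q => ∃ x : Q, Shelf.act x a = b) y z :=
  Relation.EqvGen.trans _ _ _ (E_o y) (Relation.EqvGen.symm _ _ (E_o z))

theorem connected' (a b : Q) :
    ∃ g ∈ Subgroup.closure (Set.range (Rack.act' : Q → Equiv.Perm Q)), g a = b := by
  induction connected a b with
  | rel a b h =>
    obtain ⟨x, hx⟩ := h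
    exact ⟨Rack.act' x, Subgroup.subset_closure ⟨x, rfl⟩, hx⟩
  | refl a => exact ⟨1, Subgroup.one_mem _, rfl⟩
  | symm a b _ ih =>
    obtain ⟨g, hg, rfl⟩ := ih
    exact ⟨g⁻¹, Subgroup.inv_mem _ hg, by simp⟩
  | trans a b c _ _ ih1 ih2 =>
    obtain ⟨g, hg, rfl⟩ := ih1
    obtain ⟨h, hh, rfl⟩ := ih2
    exact ⟨h * g, Subgroup.mul_mem _ hh hg, rfl⟩

lemma dvd_of_zero (p n : ℕ) (hp : Nat.Coprime p 2) (h : (2 : ZMod p) * (n : ZMod p) = 0) :
    p ∣ n := by
  have : ((2 * n : ℕ) : ZMod p) = 0 := by push_cast; exact h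
  exact hp.dvd_of_dvd_mul_left ((ZMod.natCast_eq_zero_iff _ _).1 this)

theorem no_regular_cycle :
    ¬ ∃ w : Q, ∀ z : Q, Function.minimalPeriod (Shelf.act o) z ∣
      Function.minimalPeriod (Shelf.act o) w := by
  rintro ⟨w, hw⟩
  have ho : (Shelf.act o : Q → Q) = op o := rfl
  rw [ho] at hw
  have per : ∀ z : Q, (op o)^[2 * Function.minimalPeriod (op o) z] z = z := fun z =>
    ((Function.isPeriodicPt_minimalPeriod (op o) z).const_mul 2).eq
  have p1 := per ⟨1, 0, 0, 0, 0, 0⟩
  have p2 := per ⟨0, 1, 0, 0, 0, 0⟩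
  have w1 := hw ⟨1, 0, 0, 0, 0, 0⟩
  have w2 := hw ⟨0, 1, 0, 0, 0, 0⟩
  generalize Function.minimalPeriod (op o) ⟨1, 0, 0, 0, 0, 0⟩ = n1 at p1 w1
  generalize Function.minimalPeriod (op o) ⟨0, 1, 0, 0, 0, 0⟩ = n2 at p2 w2
  rw [iter] at p1 p2
  simp only [o, add_zero, zero_add, sub_zero, mu0, mu1, Q.mk.injEq] at p1 p2
  obtain ⟨-, -, q5, -, q11, q13⟩ := p1
  obtain ⟨-, -, -, q7, -, -⟩ := p2
  push_cast at q5 q7 q11 q13
  have d5 : 5 ∣ Function.minimalPeriod (op o) w :=
    (dvd_of_zero 5 n1 (by norm_num) (by linear_combination q5)).trans w1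
  have d11 : 11 ∣ Function.minimalPeriod (op o) w :=
    (dvd_of_zero 11 n1 (by norm_num) (by linear_combination q11)).trans w1
  have d13 : 13 ∣ Function.minimalPeriod (op o) w :=
    (dvd_of_zero 13 n1 (by norm_num) (by linear_combination q13)).trans w1
  have d7 : 7 ∣ Function.minimalPeriod (op o) w :=
    (dvd_of_zero 7 n2 (by norm_num) (by linear_combination q7)).trans w2
  have e5 : (5 : ZMod 5) = 0 := by decide
  have e7 : (7 : ZMod 7) = 0 := by decide
  have e11 : (11 : ZMod 11) = 0 := by decide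
  have e13 : (13 : ZMod 13) = 0 := by decide
  have key : ∀ n : ℕ, (op o)^[2 * n] w = w → Function.minimalPeriod (op o) w ∣ 2 * n :=
    fun n h => Function.IsPeriodicPt.minimalPeriod_dvd h
  have cover : ∀ a b : ZMod 3, a = 0 ∨ b = 0 ∨ a + b = 0 ∨ a - b = 0 := by decide
  rcases cover w.a w.b with h | h | h | h
  · have := d5.trans (key 1001 (by
      rw [iter]
      apply Q.ext
      · rfl
      · rfl
      · simp [o, h, mu0]
      · simp only; push_cast; linear_combination (-286 * (mu (w.b - o.b) : ZMod 7)) * e7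
      · simp only; push_cast
        linear_combination (-182 * (mu (w.a + w.b - (o.a + o.b)) : ZMod 11)) * e11
      · simp only; push_cast
        linear_combination (-154 * (mu (w.a - w.b - (o.a - o.b)) : ZMod 13)) * e13))
    omega
  · have := d7.trans (key 715 (by
      rw [iter]
      apply Q.ext
      · rfl
      · rfl
      · simp only; push_cast; linear_combination (-286 * (mu (w.a - o.a) : ZMod 5)) * e5
      · simp [o, h, mu0]
      · simp only; push_cast
        linear_combination (-130 * (mu (w.a + w.b - (o.a + o.b)) : ZMod 11)) * e11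
      · simp only; push_cast
        linear_combination (-110 * (mu (w.a - w.b - (o.a - o.b)) : ZMod 13)) * e13))
    omega
  · have := d11.trans (key 455 (by
      rw [iter]
      apply Q.ext
      · rfl
      · rfl
      · simp only; push_cast; linear_combination (-182 * (mu (w.a - o.a) : ZMod 5)) * e5
      · simp only; push_cast; linear_combination (-130 * (mu (w.b - o.b) : ZMod 7)) * e7
      · simp [o, h, mu0]
      · simp only; push_cast
        linear_combination (-70 * (mu (w.a - w.b - (o.a - o.b)) : ZMod 13)) * e13))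
    omega
  · have := d13.trans (key 385 (by
      rw [iter]
      apply Q.ext
      · rfl
      · rfl
      · simp only; push_cast; linear_combination (-154 * (mu (w.a - o.a) : ZMod 5)) * e5
      · simp only; push_cast; linear_combination (-110 * (mu (w.b - o.b) : ZMod 7)) * e7
      · simp only; push_cast
        linear_combination (-70 * (mu (w.a + w.b - (o.a + o.b)) : ZMod 11)) * e11
      · simp [o, h, mu0]))
    omega

end Pool.Agent.H252Z.Hayashi
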