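import Mathlib

/-! Finite quotients of free groups: cyclic subgroups are separable (M. Hall's truncation argument),
and conjugating permutations for two elements of the same order. -/

set_option autoImplicit false

namespace Pool.Agent.H252Z.OneRel

open Equiv

section Trunc

variable {α X : Type} [MulAction (FreeGroup α) X]

theorem exists_trunc (Y : Finset X) :
    ∃ ρ : FreeGroup α →* Perm Y, ∀ (a : α) (y z : Y),
      FreeGroup.of a • (y : X) = (z : X) → ρ (FreeGroup.of a) y = z := by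
  have key : ∀ a : α, ∃ σ : Perm Y, ∀ y z : Y, FreeGroup.of a • (y : X) = (z : X) → σ y = z := by
    intro a
    let D := {y : Y // FreeGroup.of a • (y : X) ∈ Y}
    let f : D → Y := fun d => d.1
    let g : D → Y := fun d => ⟨FreeGroup.of a • (d.1 : X), d.2⟩
    have hf : Function.Injective f := Subtype.val_injective
    have hg : Function.Injective g := by
      intro d d' h
      have h1 : FreeGroup.of a • (d.1 : X) = FreeGroup.of a • (d'.1 : X) := congrArg Subtype.val h
      exact Subtype.ext (Subtype.ext (smul_left_cancel _ h1))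
    obtain ⟨σ, hσ⟩ := Perm.exists_extending_pair f g hf hg
    refine ⟨σ, fun y z h => ?_⟩
    have hy : FreeGroup.of a • (y : X) ∈ Y := h ▸ z.2
    have := hσ ⟨y, hy⟩
    simp only [f, g] at this
    rw [this]
    exact Subtype.ext h
  choose σ hσ using key
  refine ⟨FreeGroup.lift σ, fun a y z h => ?_⟩
  rw [FreeGroup.lift_apply_of]
  exact hσ a y z h

theorem trunc_sound (w : FreeGroup α) : ∀ x : X, ∃ P : Finset X, x ∈ P ∧
    ∀ (Y : Finset X) (ρ : FreeGroup α →* Perm Y), P ⊆ Y →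
      (∀ (a : α) (y z : Y), FreeGroup.of a • (y : X) = (z : X) → ρ (FreeGroup.of a) y = z) →
      ∀ y : Y, (y : X) = x → ((ρ w y : Y) : X) = w • x := by
  classical
  induction w using FreeGroup.induction_on with
  | C1 =>
    intro x
    refine ⟨{x}, by simp, fun Y ρ _ _ y hy => ?_⟩
    simp [hy]
  | of a =>
    intro x
    refine ⟨{x, FreeGroup.of a • x}, by simp, fun Y ρ hP hρ y hy => ?_⟩
    have hz : FreeGroup.of a • x ∈ Y := hP (by simp)
    rw [hρ a y ⟨_, hz⟩ (by rw [hy])]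
  | inv_of a _ =>
    intro x
    refine ⟨{x, (FreeGroup.of a)⁻¹ • x}, by simp, fun Y ρ hP hρ y hy => ?_⟩
    have hz : (FreeGroup.of a)⁻¹ • x ∈ Y := hP (by simp)
    have h1 := hρ a ⟨_, hz⟩ y (by simp [hy])
    have h2 : ρ (FreeGroup.of a)⁻¹ y = ⟨_, hz⟩ := by
      rw [map_inv, ← h1]
      simp
    rw [h2]
  | mul u v hu hv =>
    intro x
    obtain ⟨P1, hx1, h1⟩ := hv x
    obtain ⟨P2, hx2, h2⟩ := hu (v • x)
    refine ⟨P1 ∪ P2, by simp [hx1], fun Y ρ hP hρ y hy => ?_⟩
    have e1 := h1 Y ρ (Finset.subset_union_left.trans hP) hρ y hy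
    have e2 := h2 Y ρ (Finset.subset_union_right.trans hP) hρ _ e1
    rw [map_mul, Perm.mul_apply, e2, mul_smul]

end Trunc

/-- Cyclic subgroups of free groups are separable in finite quotients. -/
theorem exists_sep {α : Type} (c h : FreeGroup α) (hh : h ∉ Subgroup.zpowers c) :
    ∃ (Q : Type) (_ : Group Q) (_ : Finite Q) (π : FreeGroup α →* Q),
      π h ∉ Subgroup.zpowers (π c) := by
  classical
  let H := Subgroup.zpowers c
  let x0 : FreeGroup α ⧸ H := ((1 : FreeGroup α) : FreeGroup α ⧸ H)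
  obtain ⟨P1, hx1, h1⟩ := trunc_sound (X := FreeGroup α ⧸ H) h x0
  obtain ⟨P2, -, h2⟩ := trunc_sound (X := FreeGroup α ⧸ H) c x0
  obtain ⟨ρ, hρ⟩ := exists_trunc (α := α) (P1 ∪ P2)
  let y0 : (P1 ∪ P2 : Finset _) := ⟨x0, Finset.mem_union_left _ hx1⟩
  have e1 := h1 _ ρ Finset.subset_union_left hρ y0 rfl
  have e2 := h2 _ ρ Finset.subset_union_right hρ y0 rfl
  have hc : c • x0 = x0 := by
    change ((c * 1 : FreeGroup α) : FreeGroup α ⧸ H) = ((1 : FreeGroup α) : FreeGroup α ⧸ H)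
    rw [QuotientGroup.eq]
    simp [H]
  have hfix : ρ c y0 = y0 := Subtype.ext (by rw [e2, hc])
  refine ⟨Perm (P1 ∪ P2 : Finset _), inferInstance, inferInstance, ρ, ?_⟩
  rintro ⟨n, hn⟩
  have h3 : ρ h y0 = y0 := by
    rw [← hn]
    exact Perm.zpow_apply_eq_self_of_apply_eq_self hfix n
  have h4 : h • x0 = x0 := by rw [← e1, h3]
  apply hh
  have h5 : ((h * 1 : FreeGroup α) : FreeGroup α ⧸ H) = ((1 : FreeGroup α) : FreeGroup α ⧸ H) := h4
  rw [QuotientGroup.eq] at h5
  simpa [H] using h5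

theorem exists_sep_list {α : Type} (l : List (FreeGroup α × FreeGroup α)) :
    ∃ (Q : Type) (_ : Group Q) (_ : Finite Q) (π : FreeGroup α →* Q),
      ∀ p ∈ l, p.2 ∉ Subgroup.zpowers p.1 → π p.2 ∉ Subgroup.zpowers (π p.1) := by
  induction l with
  | nil => exact ⟨Unit, inferInstance, inferInstance, 1, by simp⟩
  | cons p l ih =>
    obtain ⟨Q, _, _, π, hπ⟩ := ih
    by_cases hp : p.2 ∈ Subgroup.zpowers p.1
    · refine ⟨Q, inferInstance, inferInstance, π, fun q hq hq' => ?_⟩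
      rcases List.mem_cons.1 hq with rfl | hq
      · exact absurd hp hq'
      · exact hπ q hq hq'
    · obtain ⟨Q', _, _, π', hπ'⟩ := exists_sep p.1 p.2 hp
      refine ⟨Q × Q', inferInstance, inferInstance, π.prod π', fun q hq hq' => ?_⟩
      rintro ⟨n, hn⟩
      rcases List.mem_cons.1 hq with rfl | hq
      · exact hπ' ⟨n, by simpa using congrArg Prod.snd hn⟩
      · exact hπ q hq hq' ⟨n, by simpa using congrArg Prod.fst hn⟩

/-- Two elements of the same order in a finite group: right multiplications are conjugate. -/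
theorem exists_tau {Q : Type} [Group Q] [Finite Q] (a b : Q) (h : orderOf b = orderOf a) :
    ∃ τ : Perm Q, ∀ x, τ (x * b) = τ x * a := by
  classical
  let A := Subgroup.zpowers a
  let B := Subgroup.zpowers b
  have hA : ∀ x : A, x ∈ Subgroup.zpowers (⟨a, Subgroup.mem_zpowers a⟩ : A) := by
    rintro ⟨x, n, rfl⟩
    exact ⟨n, Subtype.ext (by simp)⟩
  have hB : ∀ x : B, x ∈ Subgroup.zpowers (⟨b, Subgroup.mem_zpowers b⟩ : B) := by
    rintro ⟨x, n, rfl⟩
    exact ⟨n, Subtype.ext (by simp)⟩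
  have ho : orderOf (⟨b, Subgroup.mem_zpowers b⟩ : B) = orderOf (⟨a, Subgroup.mem_zpowers a⟩ : A) := by
    rw [← Subgroup.orderOf_coe, ← Subgroup.orderOf_coe]
    exact h
  let φ : B ≃* A := mulEquivOfOrderOfEq hB hA ho
  have hφ : φ ⟨b, Subgroup.mem_zpowers b⟩ = ⟨a, Subgroup.mem_zpowers a⟩ :=
    mulEquivOfOrderOfEq_apply_gen hB hA ho
  have hcard : Nat.card (Q ⧸ B) = Nat.card (Q ⧸ A) := by
    have h1 := Subgroup.card_eq_card_quotient_mul_card_subgroup A
    have h2 := Subgroup.card_eq_card_quotient_mul_card_subgroup B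
    have h3 : Nat.card B = Nat.card A := Nat.card_congr φ.toEquiv
    rw [h3, h1] at h2
    exact (Nat.eq_of_mul_eq_mul_right Nat.card_pos h2).symm
  obtain ⟨e⟩ : Nonempty (Q ⧸ B ≃ Q ⧸ A) := Finite.card_eq.1 hcard
  have hm : ∀ x : Q, ((x : Q ⧸ B).out)⁻¹ * x ∈ B := fun x => by
    rw [← QuotientGroup.eq]
    exact QuotientGroup.out_eq' _
  let f : Q → Q := fun x => (e (x : Q ⧸ B)).out * (φ ⟨((x : Q ⧸ B).out)⁻¹ * x, hm x⟩ : A)
  have hf : Function.Injective f := by
    intro x y hxy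
    have h1 : ((f x : Q) : Q ⧸ A) = e (x : Q ⧸ B) := by
      simp only [f]
      rw [QuotientGroup.mk_mul_of_mem _ (Subtype.property _), QuotientGroup.out_eq']
    have h2 : ((f y : Q) : Q ⧸ A) = e (y : Q ⧸ B) := by
      simp only [f]
      rw [QuotientGroup.mk_mul_of_mem _ (Subtype.property _), QuotientGroup.out_eq']
    have h3 : (x : Q ⧸ B) = (y : Q ⧸ B) := e.injective (by rw [← h1, ← h2, hxy])
    simp only [f] at hxy
    have h4 : (e (x : Q ⧸ B)).out = (e (y : Q ⧸ B)).out := by rw [h3]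
    rw [h4] at hxy
    have h5 := φ.injective (Subtype.ext (mul_left_cancel hxy))
    have h6 : ((x : Q ⧸ B).out)⁻¹ * x = ((y : Q ⧸ B).out)⁻¹ * y := congrArg Subtype.val h5
    rw [h3] at h6
    exact mul_left_cancel h6
  refine ⟨Equiv.ofBijective f (Finite.injective_iff_bijective.1 hf), fun x => ?_⟩
  change f (x * b) = f x * a
  have h1 : ((x * b : Q) : Q ⧸ B) = (x : Q ⧸ B) :=
    QuotientGroup.mk_mul_of_mem _ (Subgroup.mem_zpowers b)
  have h2 : (⟨(((x * b : Q) : Q ⧸ B).out)⁻¹ * (x * b), hm (x * b)⟩ : B)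
      = ⟨((x : Q ⧸ B).out)⁻¹ * x, hm x⟩ * ⟨b, Subgroup.mem_zpowers b⟩ := by
    apply Subtype.ext
    simp only [Subgroup.coe_mul, h1, mul_assoc]
  simp only [f]
  rw [h2, map_mul, hφ, h1]
  simp [mul_assoc]

end Pool.Agent.H252Z.OneRel
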