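import Pool.Agent.H252Z.OneRelA

/-! The one-relator group `⟨a, b, t | t⁻¹ a t = [a, b a b⁻¹]⟩` is residually finite, and the normal
closure of `a` in it is a nontrivial perfect group. -/

set_option autoImplicit false

namespace Pool.Agent.H252Z.OneRel

open Equiv

abbrev F2 : Type := FreeGroup (Fin 2)

def ga : F2 := FreeGroup.of 0
def gb : F2 := FreeGroup.of 1
def gv : F2 := ga * (gb * ga * gb⁻¹) * ga⁻¹ * (gb * ga * gb⁻¹)⁻¹

def inc : F2 →* FreeGroup (Fin 3) := FreeGroup.map Fin.castSucc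

def rel : FreeGroup (Fin 3) := (FreeGroup.of 2)⁻¹ * inc ga * FreeGroup.of 2 * (inc gv)⁻¹

abbrev G : Type := PresentedGroup ({rel} : Set (FreeGroup (Fin 3)))

def iota : F2 →* G := (PresentedGroup.mk _).comp inc

def tt : G := PresentedGroup.mk _ (FreeGroup.of 2)

def T : Bool → G
  | true => tt
  | false => tt⁻¹

def gen : Bool → F2
  | true => gv
  | false => ga

theorem relation : tt⁻¹ * iota ga * tt = iota gv := by
  have h : PresentedGroup.mk ({rel} : Set (FreeGroup (Fin 3))) rel = 1 :=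
    PresentedGroup.one_of_mem (Set.mem_singleton _)
  have h2 : tt⁻¹ * iota ga * tt * (iota gv)⁻¹ = 1 := by
    have h3 : PresentedGroup.mk ({rel} : Set (FreeGroup (Fin 3)))
        ((FreeGroup.of 2)⁻¹ * inc ga * FreeGroup.of 2 * (inc gv)⁻¹) = 1 := h
    rw [map_mul, map_mul, map_mul, map_inv, map_inv] at h3
    exact h3
  exact mul_inv_eq_one.1 h2

theorem relation_zpow (n : ℤ) : tt⁻¹ * iota (ga ^ n) * tt = iota (gv ^ n) := by
  rw [map_zpow, map_zpow, ← relation]
  have := (conj_zpow (i := n) (a := tt⁻¹) (b := iota ga))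
  simpa using this.symm

theorem pinch (e e' : Bool) (h : e ≠ e') (g : F2) (hg : g ∈ Subgroup.zpowers (gen e)) :
    ∃ g' : F2, T e * iota g * T e' = iota g' := by
  obtain ⟨n, rfl⟩ := hg
  cases e <;> cases e'
  · exact absurd rfl h
  · exact ⟨gv ^ n, relation_zpow n⟩
  · refine ⟨ga ^ n, ?_⟩
    simp only [T, gen]
    rw [← relation_zpow n]
    group
  · exact absurd rfl h

def ev : List (Bool × F2) → G
  | [] => 1
  | p :: l => T p.1 * iota p.2 * ev l

def Red (l : List (Bool × F2)) : Prop :=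
  l.IsChain fun p q => p.1 ≠ q.1 → p.2 ∉ Subgroup.zpowers (gen p.1)

def NF (x : G) : Prop := ∃ (g : F2) (l : List (Bool × F2)), Red l ∧ x = iota g * ev l

theorem NF.mul_iota {x : G} (h : NF x) (g : F2) : NF (iota g * x) := by
  obtain ⟨g', l, hl, rfl⟩ := h
  exact ⟨g * g', l, hl, by rw [map_mul, mul_assoc]⟩

theorem NF.mul_T {x : G} (h : NF x) (e : Bool) : NF (T e * x) := by
  obtain ⟨g, l, hl, rfl⟩ := h
  cases l with
  | nil => exact ⟨1, [(e, g)], List.isChain_singleton _, by simp [ev]⟩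
  | cons q l =>
    by_cases hc : e ≠ q.1 → g ∉ Subgroup.zpowers (gen e)
    · refine ⟨1, (e, g) :: q :: l, ?_, by simp [ev, mul_assoc]⟩
      exact List.isChain_cons_cons.2 ⟨hc, hl⟩
    · push Not at hc
      obtain ⟨g', hg'⟩ := pinch e q.1 hc.1 g hc.2
      refine ⟨g' * q.2, l, List.IsChain.tail hl, ?_⟩
      rw [map_mul, ← hg']
      simp [ev, mul_assoc]

theorem nf (x : G) : NF x := by
  obtain ⟨w, rfl⟩ := PresentedGroup.mk_surjective _ x
  have key : ∀ y : G, NF y → NF (PresentedGroup.mk _ w * y) := by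
    induction w using FreeGroup.induction_on with
    | C1 => intro y hy; simpa using hy
    | of a =>
      intro y hy
      fin_cases a
      · exact hy.mul_iota ga
      · exact hy.mul_iota gb
      · exact hy.mul_T true
    | inv_of a _ =>
      intro y hy
      fin_cases a
      · have := hy.mul_iota ga⁻¹
        rw [map_inv] at this
        rw [map_inv]
        exact this
      · have := hy.mul_iota gb⁻¹
        rw [map_inv] at this
        rw [map_inv]
        exact this
      · rw [map_inv]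
        exact hy.mul_T false
    | mul u v hu hv =>
      intro y hy
      rw [map_mul, mul_assoc]
      exact hu _ (hv _ hy)
  simpa using key 1 ⟨1, [], List.isChain_nil, by simp [ev]⟩

/-- A finite quotient of the free group separating a given list and in which `a`, `v` have the
same order. -/
theorem exists_quot (l : List (F2 × F2)) :
    ∃ (Q : Type) (_ : Group Q) (_ : Finite Q) (π : F2 →* Q),
      (∀ p ∈ l, p.2 ∉ Subgroup.zpowers p.1 → π p.2 ∉ Subgroup.zpowers (π p.1)) ∧
      orderOf (π gv) = orderOf (π ga) := by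
  obtain ⟨Q, _, _, π, hπ⟩ := exists_sep_list l
  set k : ℕ := 2 * Nat.card Q with hk
  have hkpos : 0 < k := by have := @Nat.card_pos Q _ _; omega
  haveI : NeZero k := ⟨hkpos.ne'⟩
  haveI : NeZero (4 * k) := ⟨by omega⟩
  let δ : F2 →* DihedralGroup (4 * k) :=
    FreeGroup.lift ![DihedralGroup.sr 0, DihedralGroup.r 1]
  let ζ : F2 →* Multiplicative (ZMod k) := FreeGroup.lift ![Multiplicative.ofAdd 1, 1]
  have hδa : δ ga = DihedralGroup.sr 0 := by simp [δ, ga]
  have hδb : δ gb = DihedralGroup.r 1 := by simp [δ, gb]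
  have hδv : δ gv = DihedralGroup.r (-4) := by
    simp only [gv, map_mul, map_inv, hδa, hδb, DihedralGroup.inv_r, DihedralGroup.inv_sr,
      DihedralGroup.r_mul_sr, DihedralGroup.sr_mul_r, DihedralGroup.sr_mul_sr]
    congr 1
    ring
  have hζa : ζ ga = Multiplicative.ofAdd 1 := by simp [ζ, ga]
  have hζv : ζ gv = 1 := by
    simp only [gv, map_mul, map_inv]
    simp [mul_comm, mul_left_comm]
  have hQ : ∀ (q : Q) (n : ℕ), k ∣ n → q ^ n = 1 := by
    rintro q n ⟨m, rfl⟩
    rw [hk, mul_comm 2, mul_assoc, pow_mul, pow_card_eq_one', one_pow]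
  refine ⟨Q × DihedralGroup (4 * k) × Multiplicative (ZMod k), inferInstance, inferInstance,
    π.prod (δ.prod ζ), fun q hq hq' => ?_, ?_⟩
  · rintro ⟨n, hn⟩
    exact hπ q hq hq' ⟨n, by simpa using congrArg Prod.fst hn⟩
  · have h1 : ∀ n : ℕ, (π.prod (δ.prod ζ)) gv ^ n = 1 ↔ k ∣ n := by
      intro n
      simp only [MonoidHom.prod_apply, Prod.pow_mk, Prod.mk_eq_one, hδv, hζv, one_pow, and_true,
        DihedralGroup.r_pow, DihedralGroup.one_def, DihedralGroup.r.injEq]
      have h4 : ((-4 : ZMod (4 * k)) * n = 0) ↔ k ∣ n := by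
        rw [neg_mul, neg_eq_zero]
        have : (4 : ZMod (4 * k)) * n = ((4 * n : ℕ) : ZMod (4 * k)) := by push_cast; ring
        rw [this, ZMod.natCast_eq_zero_iff]
        exact Nat.mul_dvd_mul_iff_left (by norm_num)
      rw [h4]
      exact ⟨fun h => h.2, fun h => ⟨hQ _ _ h, h⟩⟩
    have h2 : ∀ n : ℕ, (π.prod (δ.prod ζ)) ga ^ n = 1 ↔ k ∣ n := by
      intro n
      simp only [MonoidHom.prod_apply, Prod.pow_mk, Prod.mk_eq_one, hδa, hζa]
      have h4 : ((Multiplicative.ofAdd (1 : ZMod k)) ^ n = 1) ↔ k ∣ n := by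
        rw [← ofAdd_nsmul, ofAdd_eq_one, nsmul_one, ZMod.natCast_eq_zero_iff]
      rw [h4]
      refine ⟨fun h => h.2.2, fun h => ⟨hQ _ _ h, ?_, h⟩⟩
      obtain ⟨m, rfl⟩ := h
      rw [hk, mul_assoc, pow_mul, pow_two, DihedralGroup.sr_mul_self, one_pow]
    rw [orderOf_eq_orderOf_iff]
    intro n
    rw [h1, h2]

section Act

variable {Q S : Type} [Group Q] [Group S]

def rperm (S : Type) [Group S] : Q →* Perm (Q × S) where
  toFun q :=
    { toFun := fun p => (p.1 * q⁻¹, p.2)
      invFun := fun p => (p.1 * q, p.2)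
      left_inv := fun p => by simp
      right_inv := fun p => by simp }
  map_one' := by ext p <;> simp
  map_mul' q q' := by ext p <;> simp [mul_assoc]

theorem rperm_apply (q : Q) (p : Q × S) : rperm S q p = (p.1 * q⁻¹, p.2) := rfl

def tperm (τ : Perm Q) (c : Q → S) : Perm (Q × S) where
  toFun p := (τ p.1, c p.1 * p.2)
  invFun p := (τ.symm p.1, (c (τ.symm p.1))⁻¹ * p.2)
  left_inv p := by simp
  right_inv p := by simp

theorem tperm_apply (τ : Perm Q) (c : Q → S) (p : Q × S) :
    tperm τ c p = (τ p.1, c p.1 * p.2) := rfl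

theorem tperm_inv_apply (τ : Perm Q) (c : Q → S) (p : Q × S) :
    (tperm τ c)⁻¹ p = (τ.symm p.1, (c (τ.symm p.1))⁻¹ * p.2) := rfl

theorem exists_psi (π : F2 →* Q) (τ : Perm Q) (hτ : ∀ x, τ (x * π gv) = τ x * π ga)
    (c : Q → S) (hc : ∀ x, c (x * π gv) = c x) :
    ∃ ψ : G →* Perm (Q × S), (∀ g, ψ (iota g) = rperm S (π g)) ∧ ψ tt = tperm τ c := by
  let f : Fin 3 → Perm (Q × S) := ![rperm S (π ga), rperm S (π gb), tperm τ c]
  have h1 : (FreeGroup.lift f).comp inc = (rperm S).comp π := by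
    apply FreeGroup.ext_hom
    intro a
    fin_cases a
    · simp [inc, f, ga]
    · simp [inc, f, gb]
  have h2 : ∀ g, FreeGroup.lift f (inc g) = rperm S (π g) := fun g => DFunLike.congr_fun h1 g
  have h3 : ∀ r ∈ ({rel} : Set (FreeGroup (Fin 3))), FreeGroup.lift f r = 1 := by
    intro r hr
    rw [Set.mem_singleton_iff.1 hr]
    simp only [rel, map_mul, map_inv, h2, FreeGroup.lift_apply_of]
    rw [mul_inv_eq_one]
    have h4 : f 2 = tperm τ c := rfl
    rw [h4]
    apply Equiv.ext
    intro p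
    have h5 : τ p.1 * (π ga)⁻¹ = τ (p.1 * (π gv)⁻¹) := by
      have := hτ (p.1 * (π gv)⁻¹)
      rw [inv_mul_cancel_right] at this
      rw [this, mul_inv_cancel_right]
    have h6 : c (p.1 * (π gv)⁻¹) = c p.1 := by
      rw [← hc, inv_mul_cancel_right]
    rw [Perm.mul_apply, Perm.mul_apply, tperm_apply, rperm_apply, tperm_inv_apply, rperm_apply]
    simp only [h5, Equiv.symm_apply_apply, h6, inv_mul_cancel_left]
  refine ⟨PresentedGroup.toGroup h3, fun g => ?_, ?_⟩
  · rw [← h2]
    rfl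
  · exact PresentedGroup.toGroup.of h3

def pt (π : F2 →* Q) (τ : Perm Q) : List (Bool × F2) → Q
  | [] => 1
  | (true, g) :: l => τ (pt π τ l * (π g)⁻¹)
  | (false, g) :: l => τ.symm (pt π τ l * (π g)⁻¹)

def wd (π : F2 →* Q) (τ : Perm Q) :
    List (Bool × F2) → List ((Q ⧸ Subgroup.zpowers (π gv)) × Bool)
  | [] => []
  | (true, g) :: l => (((pt π τ l * (π g)⁻¹ : Q) : Q ⧸ _), true) :: wd π τ l
  | (false, g) :: l => (((τ.symm (pt π τ l * (π g)⁻¹) : Q) : Q ⧸ _), false) :: wd π τ l

theorem psi_ev (π : F2 →* Q) (τ : Perm Q)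
    (ρ : FreeGroup (Q ⧸ Subgroup.zpowers (π gv)) →* S) (ψ : G →* Perm (Q × S))
    (h1 : ∀ g, ψ (iota g) = rperm S (π g))
    (h2 : ψ tt = tperm τ fun x => ρ (FreeGroup.of (x : Q ⧸ Subgroup.zpowers (π gv))))
    (l : List (Bool × F2)) :
    ψ (ev l) (1, 1) = (pt π τ l, ρ (FreeGroup.mk (wd π τ l))) := by
  induction l with
  | nil =>
    simp only [ev, map_one, pt, wd, Perm.one_apply]
    rw [← FreeGroup.one_eq_mk, map_one]
  | cons p l ih =>
    obtain ⟨e, g⟩ := p
    cases e
    · simp only [ev, map_mul, T, map_inv, Perm.mul_apply, ih, h1, h2, rperm_apply, tperm_inv_apply,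
        pt, wd]
      rw [← map_inv ρ, ← map_mul ρ]
      rfl
    · simp only [ev, map_mul, T, Perm.mul_apply, ih, h1, h2, rperm_apply, tperm_apply, pt, wd]
      rw [← map_mul ρ]
      rfl

theorem wd_reduced (π : F2 →* Q) (τ : Perm Q) (hτ : ∀ x, τ (x * π gv) = τ x * π ga)
    (l : List (Bool × F2))
    (hl : l.IsChain fun p q => p.1 ≠ q.1 → π p.2 ∉ Subgroup.zpowers (π (gen p.1))) :
    FreeGroup.IsReduced (wd π τ l) := by
  have hτ' : ∀ (n : ℤ) (x : Q), τ (x * π gv ^ n) = τ x * π ga ^ n := by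
    intro n
    induction n using Int.induction_on with
    | zero => simp
    | succ n ih => intro x; rw [zpow_add_one, zpow_add_one, ← mul_assoc, hτ, ih, mul_assoc]
    | pred n ih =>
      intro x
      rw [zpow_sub_one, zpow_sub_one, ← mul_assoc, ← mul_assoc, ← ih]
      have := hτ (x * π gv ^ (-(n : ℤ)) * (π gv)⁻¹)
      rw [inv_mul_cancel_right] at this
      rw [this, mul_inv_cancel_right]
  induction l with
  | nil => exact FreeGroup.IsReduced.nil
  | cons p l ih =>
    cases l with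
    | nil =>
      obtain ⟨e, g⟩ := p
      cases e <;> exact FreeGroup.IsReduced.singleton
    | cons q l =>
      have ih' := ih (List.IsChain.tail hl)
      have h0 := (List.isChain_cons_cons.1 hl).1
      obtain ⟨e, g⟩ := p
      obtain ⟨e', g'⟩ := q
      cases e <;> cases e'
      · exact FreeGroup.isReduced_cons_cons.2 ⟨fun _ => rfl, ih'⟩
      · refine FreeGroup.isReduced_cons_cons.2 ⟨fun h => ?_, ih'⟩
        exfalso
        apply h0 (by simp)
        simp only [pt] at h
        obtain ⟨n, hn⟩ := QuotientGroup.eq.1 h.symm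
        simp only at hn
        have h3 := hτ' n (pt π τ l * (π g')⁻¹)
        rw [hn, mul_inv_cancel_left, Equiv.apply_symm_apply] at h3
        have h4 := mul_left_cancel h3
        refine ⟨-n, ?_⟩
        simp only [gen]
        rw [zpow_neg, ← h4, inv_inv]
      · refine FreeGroup.isReduced_cons_cons.2 ⟨fun h => ?_, ih'⟩
        exfalso
        apply h0 (by simp)
        simp only [pt] at h
        have h3 := QuotientGroup.eq.1 h
        simpa [gen, mul_assoc] using h3
      · exact FreeGroup.isReduced_cons_cons.2 ⟨fun _ => rfl, ih'⟩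

theorem wd_ne_nil (π : F2 →* Q) (τ : Perm Q) (l : List (Bool × F2)) (hl : l ≠ []) :
    wd π τ l ≠ [] := by
  cases l with
  | nil => exact absurd rfl hl
  | cons p l =>
    obtain ⟨e, g⟩ := p
    cases e <;> simp [wd]

end Act

theorem exists_finite_hom (g : F2) (l : List (Bool × F2)) (hl : Red l) (h : l ≠ [] ∨ g ≠ 1) :
    ∃ (P : Type) (_ : Group P) (_ : Finite P) (ψ : G →* P), ψ (iota g * ev l) ≠ 1 := by
  classical
  obtain ⟨Q, _, _, π, hπ, ho⟩ := exists_quot ((1, g) :: l.map fun p => (gen p.1, p.2))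
  obtain ⟨τ, hτ⟩ := exists_tau (π ga) (π gv) ho
  have hl' : l.IsChain fun p q => p.1 ≠ q.1 → π p.2 ∉ Subgroup.zpowers (π (gen p.1)) := by
    refine List.IsChain.imp_of_mem_imp ?_ hl
    intro p q hp _ hpq hne
    exact hπ (gen p.1, p.2) (List.mem_cons_of_mem _ (List.mem_map.2 ⟨p, hp, rfl⟩)) (hpq hne)
  have hred := wd_reduced π τ hτ l hl'
  obtain ⟨S, _, _, ρ, hρ⟩ := exists_sep_list [(1, FreeGroup.mk (wd π τ l))]
  obtain ⟨ψ, h1, h2⟩ := exists_psi π τ hτ
    (fun x => ρ (FreeGroup.of (x : Q ⧸ Subgroup.zpowers (π gv)))) (fun x => by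
      rw [QuotientGroup.mk_mul_of_mem _ (Subgroup.mem_zpowers _)])
  refine ⟨Perm (Q × S), inferInstance, inferInstance, ψ, fun h0 => ?_⟩
  have h3 : ψ (iota g * ev l) (1, 1) = (1, 1) := by rw [h0]; rfl
  rw [map_mul, Perm.mul_apply, psi_ev π τ ρ ψ h1 h2, h1, rperm_apply] at h3
  by_cases hnil : l = []
  · have hg : g ≠ 1 := h.resolve_left (not_not.2 hnil)
    have h4 := congrArg Prod.fst h3
    subst hnil
    simp only [pt, one_mul, inv_eq_one] at h4
    apply hπ (1, g) List.mem_cons_self (by simpa using hg)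
    rw [h4]
    exact one_mem _
  · have h4 : ρ (FreeGroup.mk (wd π τ l)) = 1 := congrArg Prod.snd h3
    have h5 : FreeGroup.mk (wd π τ l) ≠ 1 := by
      intro h5
      have := congrArg FreeGroup.toWord h5
      rw [FreeGroup.toWord_mk, hred.reduce_eq, FreeGroup.toWord_one] at this
      exact wd_ne_nil π τ l hnil this
    apply hρ (1, FreeGroup.mk (wd π τ l)) List.mem_cons_self (by simpa using h5)
    rw [h4]
    exact one_mem _

theorem resFinite (x : G) (hx : x ≠ 1) :
    ∃ N : Subgroup G, N.Normal ∧ N.FiniteIndex ∧ x ∉ N := by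
  obtain ⟨g, l, hl, rfl⟩ := nf x
  have h : l ≠ [] ∨ g ≠ 1 := by
    by_contra hc
    push Not at hc
    apply hx
    rw [hc.1, hc.2]
    simp [ev]
  obtain ⟨P, _, _, ψ, hψ⟩ := exists_finite_hom g l hl h
  exact ⟨ψ.ker, inferInstance, inferInstance, hψ⟩

theorem iota_ga_ne_one : iota ga ≠ 1 := by
  obtain ⟨P, _, _, ψ, hψ⟩ := exists_finite_hom ga [] List.isChain_nil (Or.inr (by simp [ga]))
  intro h
  apply hψ
  simp [h, ev]

theorem iota_ga_mem (k : ℕ) : iota ga ∈ derivedSeries G k := by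
  induction k with
  | zero => simp
  | succ k ih =>
    have hn : (derivedSeries G k).Normal := inferInstance
    have hn' : (derivedSeries G (k + 1)).Normal := inferInstance
    have h1 : iota gb * iota ga * (iota gb)⁻¹ ∈ derivedSeries G k := hn.conj_mem _ ih _
    have h2 : iota gv ∈ derivedSeries G (k + 1) := by
      rw [derivedSeries_succ]
      have := Subgroup.commutator_mem_commutator ih h1
      simpa [gv, commutatorElement_def] using this
    have h3 : iota ga = tt * iota gv * tt⁻¹ := by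
      rw [← relation]
      group
    rw [h3]
    exact hn'.conj_mem _ h2 _

end Pool.Agent.H252Z.OneRel
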