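import Mathlib

set_option autoImplicit false

namespace Pool.Agent.H252Z.Shelf

open Finsupp Module

section general

variable {X : Type} (op : X → X → X)

/-- words of length `m` -/
abbrev W (X : Type) (m : ℕ) : Type := (Fin m → X) →₀ ℚ

/-- the `i`-th face map -/
def face {m : ℕ} (i : Fin (m + 1)) (x : Fin (m + 1) → X) : Fin m → X :=
  fun j => if Fin.castSucc j < i then op (x (i.succAbove j)) (x i) else x (i.succAbove j)

lemma face_zero {m : ℕ} (a : X) (w : Fin m → X) :
    face op 0 (Fin.cons a w : Fin (m + 1) → X) = w := by
  funext j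
  simp [face]

lemma face_succ {m : ℕ} (a : X) (w : Fin (m + 1) → X) (i : Fin (m + 1)) :
    face op i.succ (Fin.cons a w : Fin (m + 2) → X) =
      (Fin.cons (op a (w i)) (face op i w) : Fin (m + 1) → X) := by
  funext j
  refine Fin.cases ?_ (fun k => ?_) j
  · simp [face]
  · have h : (Fin.castSucc k.succ < i.succ) ↔ (Fin.castSucc k < i) := by
      simp [Fin.lt_def]
    simp only [face, Fin.cons_succ, Fin.succ_succAbove_succ, h]

/-- prepend a letter -/
noncomputable def s (a : X) (m : ℕ) : W X m →ₗ[ℚ] W X (m + 1) :=
  Finsupp.lmapDomain ℚ ℚ (fun w : Fin m → X => (Fin.cons a w : Fin (m + 1) → X))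

lemma s_single (a : X) (m : ℕ) (w : Fin m → X) (c : ℚ) :
    s a m (single w c) = single (Fin.cons a w : Fin (m + 1) → X) c := by
  simp [s]

variable [DecidableEq X]

/-- the part of the boundary that removes the letter `x` -/
noncomputable def P (x : X) (m : ℕ) : W X (m + 1) →ₗ[ℚ] W X m :=
  Finsupp.linearCombination ℚ (fun w : Fin (m + 1) → X =>
    ∑ i : Fin (m + 1), (if w i = x then (-1 : ℚ) ^ (i : ℕ) else 0) • single (face op i w) (1 : ℚ))

lemma P_single (x : X) (m : ℕ) (w : Fin (m + 1) → X) :
    P op x m (single w 1) =
      ∑ i : Fin (m + 1), (if w i = x then (-1 : ℚ) ^ (i : ℕ) else 0) •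
        single (face op i w) (1 : ℚ) := by
  simp [P]

lemma P_s_zero (x a : X) (u : W X 0) :
    P op x 0 (s a 0 u) = (if a = x then (1 : ℚ) else 0) • u := by
  have : (P op x 0) ∘ₗ (s a 0) = (if a = x then (1 : ℚ) else 0) • LinearMap.id := by
    apply Finsupp.lhom_ext'
    intro w
    apply LinearMap.ext_ring
    simp only [LinearMap.comp_apply, lsingle_apply, s_single, P_single, LinearMap.smul_apply,
      LinearMap.id_apply]
    simp [face_zero]
  exact LinearMap.congr_fun this u

lemma P_s (x a : X) (m : ℕ) (u : W X (m + 1)) :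
    P op x (m + 1) (s a (m + 1) u) =
      (if a = x then (1 : ℚ) else 0) • u - s (op a x) m (P op x m u) := by
  have : (P op x (m + 1)) ∘ₗ (s a (m + 1)) =
      (if a = x then (1 : ℚ) else 0) • LinearMap.id - (s (op a x) m) ∘ₗ (P op x m) := by
    apply Finsupp.lhom_ext'
    intro w
    apply LinearMap.ext_ring
    simp only [LinearMap.comp_apply, lsingle_apply, s_single, P_single, LinearMap.sub_apply,
      LinearMap.smul_apply, LinearMap.id_apply, map_sum, map_smul]
    rw [Fin.sum_univ_succ, sub_eq_add_neg, ← Finset.sum_neg_distrib]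
    refine congrArg₂ (· + ·) ?_ ?_
    · simp [face_zero]
    · refine Finset.sum_congr rfl (fun i _ => ?_)
      rw [face_succ]
      by_cases h : w i = x
      · simp [h, pow_succ]
      · simp [h]
  exact LinearMap.congr_fun this u

omit [DecidableEq X] in
/-- two linear maps on words of length `m+1` agree if they agree after prepending any letter -/
lemma ext_s {M : Type} [AddCommGroup M] [Module ℚ M] (m : ℕ) (f g : W X (m + 1) →ₗ[ℚ] M)
    (h : ∀ a u, f (s a m u) = g (s a m u)) : f = g := by
  apply Finsupp.lhom_ext'
  intro w
  apply LinearMap.ext_ring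
  have := h (w 0) (single (Fin.tail w) 1)
  rw [s_single, Fin.cons_self_tail] at this
  simpa using this

variable [Fintype X]

lemma invariance (hop : ∀ a b c : X, op (op a b) c = op (op a c) (op b c)) (m : ℕ) :
    ∀ F : X → X → ℚ, (∀ x y, F x y = F y (op x y)) →
      ∀ u : W X (m + 2), ∑ x, ∑ y, F x y • P op y m (P op x (m + 1) u) = 0 := by
  induction m with
  | zero =>
    intro F hF u
    have : (∑ x, ∑ y, F x y • ((P op y 0) ∘ₗ (P op x 1))) = 0 := by
      apply ext_s
      intro a u
      simp only [LinearMap.sum_apply, LinearMap.smul_apply, LinearMap.comp_apply,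
        LinearMap.zero_apply, P_s, map_sub, map_smul, P_s_zero, smul_sub, Finset.sum_sub_distrib]
      have h1 : ∑ x, ∑ y, F x y • (if a = x then (1 : ℚ) else 0) • P op y 0 u =
          ∑ y, F a y • P op y 0 u := by
        rw [Finset.sum_eq_single a]
        · simp
        · intro b _ hb
          simp [Ne.symm hb]
        · simp
      have h2 : ∑ x, ∑ y, F x y • (if op a x = y then (1 : ℚ) else 0) • P op x 0 u =
          ∑ x, F a x • P op x 0 u := by
        refine Finset.sum_congr rfl (fun x _ => ?_)
        rw [Finset.sum_eq_single (op a x)]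
        · simp [← hF]
        · intro b _ hb
          simp [Ne.symm hb]
        · simp
      rw [h1, h2, sub_self]
    simpa using LinearMap.congr_fun this u
  | succ m ih =>
    intro F hF u
    have : (∑ x, ∑ y, F x y • ((P op y (m + 1)) ∘ₗ (P op x (m + 2)))) = 0 := by
      apply ext_s
      intro a u
      simp only [LinearMap.sum_apply, LinearMap.smul_apply, LinearMap.comp_apply,
        LinearMap.zero_apply, P_s, map_sub, map_smul, smul_sub, Finset.sum_sub_distrib]
      have h1 : ∑ x, ∑ y, F x y • (if a = x then (1 : ℚ) else 0) • P op y (m + 1) u =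
          ∑ y, F a y • P op y (m + 1) u := by
        rw [Finset.sum_eq_single a]
        · simp
        · intro b _ hb
          simp [Ne.symm hb]
        · simp
      have h2 : ∑ x, ∑ y, F x y • (if op a x = y then (1 : ℚ) else 0) • P op x (m + 1) u =
          ∑ x, F a x • P op x (m + 1) u := by
        refine Finset.sum_congr rfl (fun x _ => ?_)
        rw [Finset.sum_eq_single (op a x)]
        · simp [← hF]
        · intro b _ hb
          simp [Ne.symm hb]
        · simp
      have h3 : ∑ x, ∑ y, F x y • s (op (op a x) y) m (P op y m (P op x (m + 1) u)) = 0 := by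
        have h4 : ∀ v : X, ∑ x, ∑ y, (if op (op a x) y = v then F x y else 0) •
            P op y m (P op x (m + 1) u) = 0 := by
          intro v
          apply ih
          intro x y
          rw [← hop, ← hF]
        have h5 : ∑ x, ∑ y, F x y • s (op (op a x) y) m (P op y m (P op x (m + 1) u)) =
            ∑ v, s v m (∑ x, ∑ y, (if op (op a x) y = v then F x y else 0) •
              P op y m (P op x (m + 1) u)) := by
          simp only [map_sum, map_smul]
          symm
          rw [Finset.sum_comm]
          refine Finset.sum_congr rfl (fun x _ => ?_)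
          rw [Finset.sum_comm]
          refine Finset.sum_congr rfl (fun y _ => ?_)
          rw [Finset.sum_eq_single (op (op a x) y)]
          · simp
          · intro b _ hb
            simp [Ne.symm hb]
          · simp
        rw [h5]
        simp only [h4, map_zero, Finset.sum_const_zero]
      rw [h1, h2, h3]
      simp
    simpa using LinearMap.congr_fun this u

/-- the full boundary map -/
noncomputable def D (m : ℕ) : W X (m + 1) →ₗ[ℚ] W X m := ∑ x, P op x m

lemma D_eq (m : ℕ) : D op m = ∑ i : Fin (m + 1), ((-1 : ℚ) ^ (i : ℕ)) •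
    Finsupp.lmapDomain ℚ ℚ (fun (x : Fin (m + 1) → X) (j : Fin m) =>
      if Fin.castSucc j < i then op (x (i.succAbove j)) (x i) else x (i.succAbove j)) := by
  apply Finsupp.lhom_ext'
  intro w
  apply LinearMap.ext_ring
  simp only [D, LinearMap.comp_apply, lsingle_apply, LinearMap.sum_apply, P_single,
    LinearMap.smul_apply, lmapDomain_apply, mapDomain_single]
  rw [Finset.sum_comm]
  refine Finset.sum_congr rfl (fun i _ => ?_)
  rw [Finset.sum_eq_single (w i)]
  · simp only [if_true]
    rfl
  · intro b _ hb
    simp [Ne.symm hb]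
  · simp

omit [DecidableEq X] in
lemma finrank_W (m : ℕ) : finrank ℚ (W X m) = Fintype.card X ^ m := by
  simp [W]

end general

end Pool.Agent.H252Z.Shelf
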