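import Pool.Agent.H252Z.ShelfBasic

set_option autoImplicit false

namespace Pool.Agent.H252Z.Shelf

open Finsupp Module

section linalg

variable {A B : Type} [AddCommGroup A] [Module ℚ A] [AddCommGroup B] [Module ℚ B]

lemma finrank_map_add [FiniteDimensional ℚ A] (f : A →ₗ[ℚ] B) (U : Submodule ℚ A) :
    finrank ℚ (U.map f) + finrank ℚ ↥(U ⊓ LinearMap.ker f) = finrank ℚ U := by
  have h := LinearMap.finrank_range_add_finrank_ker (f.domRestrict U)
  rw [LinearMap.range_domRestrict, LinearMap.ker_domRestrict] at h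
  rw [← h]
  congr 1
  have e : Submodule.comap U.subtype (LinearMap.ker f) =
      Submodule.comap U.subtype (U ⊓ LinearMap.ker f) := by
    ext x
    simp
  rw [e]
  exact (Submodule.comapSubtypeEquivOfLe (inf_le_left : U ⊓ LinearMap.ker f ≤ U)).finrank_eq.symm

lemma homology_eq {C2 C1 C0 S2 S1 S0 : Type}
    [AddCommGroup C2] [Module ℚ C2] [AddCommGroup C1] [Module ℚ C1] [AddCommGroup C0] [Module ℚ C0]
    [AddCommGroup S2] [Module ℚ S2] [AddCommGroup S1] [Module ℚ S1] [AddCommGroup S0] [Module ℚ S0]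
    [FiniteDimensional ℚ C1]
    (D2 : C2 →ₗ[ℚ] C1) (D1 : C1 →ₗ[ℚ] C0) (d2 : S2 →ₗ[ℚ] S1) (d1 : S1 →ₗ[ℚ] S0)
    (i2 : S2 →ₗ[ℚ] C2) (i1 : S1 →ₗ[ℚ] C1) (i0 : S0 →ₗ[ℚ] C0) (p1 : C1 →ₗ[ℚ] S1)
    (T1 : C1 →ₗ[ℚ] C2) (T0 : C0 →ₗ[ℚ] C1)
    (h1 : ∀ z, D2 (T1 z) + T0 (D1 z) = z - i1 (p1 z))
    (h2 : ∀ u, D2 (i2 u) = i1 (d2 u)) (h3 : ∀ u, D1 (i1 u) = i0 (d1 u))
    (h4 : ∀ u, p1 (i1 u) = u) (h5 : ∀ u, i0 u = 0 → u = 0)
    (h6 : ∀ w, D1 (D2 w) = 0) (h7 : ∀ w, ∃ u, p1 (D2 w) = d2 u) :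
    finrank ℚ (LinearMap.ker D1) + finrank ℚ (LinearMap.range d2) =
      finrank ℚ (LinearMap.range D2) + finrank ℚ (LinearMap.ker d1) := by
  have e1 := finrank_map_add p1 (LinearMap.ker D1)
  have e2 := finrank_map_add p1 (LinearMap.range D2)
  have f1 : (LinearMap.ker D1).map p1 = LinearMap.ker d1 := by
    ext u
    simp only [Submodule.mem_map, LinearMap.mem_ker]
    constructor
    · rintro ⟨z, hz, rfl⟩
      apply h5
      rw [← h3]
      have : i1 (p1 z) = z - D2 (T1 z) := by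
        have := h1 z
        rw [hz, map_zero, add_zero] at this
        rw [this]
        abel
      rw [this, map_sub, hz, h6, sub_zero]
    · intro hu
      exact ⟨i1 u, by rw [h3, hu, map_zero], h4 u⟩
  have f2 : (LinearMap.range D2).map p1 = LinearMap.range d2 := by
    ext u
    simp only [Submodule.mem_map, LinearMap.mem_range]
    constructor
    · rintro ⟨z, ⟨w, rfl⟩, rfl⟩
      obtain ⟨u, hu⟩ := h7 w
      exact ⟨u, hu.symm⟩
    · rintro ⟨v, rfl⟩
      exact ⟨D2 (i2 v), ⟨_, rfl⟩, by rw [h2, h4]⟩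
  have f3 : LinearMap.ker D1 ⊓ LinearMap.ker p1 = LinearMap.range D2 ⊓ LinearMap.ker p1 := by
    ext z
    simp only [Submodule.mem_inf, LinearMap.mem_ker, LinearMap.mem_range]
    constructor
    · rintro ⟨hz, hp⟩
      refine ⟨⟨T1 z, ?_⟩, hp⟩
      have := h1 z
      rw [hz, hp, map_zero, map_zero, add_zero, sub_zero] at this
      exact this
    · rintro ⟨⟨w, rfl⟩, hp⟩
      exact ⟨h6 w, hp⟩
  rw [f1, f3] at e1
  rw [f2] at e2
  omega

end linalg

/-- the six element shelf: `0,1,2,3` act as constants, `4` and `5` fix `4,5` and act on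
`0,1,2,3` by the maps `3 ↦ 1`, respectively `3 ↦ 2`, and `0,1,2 ↦ 0` -/
def op6 (x y : Fin 6) : Fin 6 :=
  ![![0, 1, 2, 3, 0, 0], ![0, 1, 2, 3, 0, 0], ![0, 1, 2, 3, 0, 0],
    ![0, 1, 2, 3, 1, 2], ![0, 1, 2, 3, 4, 4], ![0, 1, 2, 3, 5, 5]] x y

lemma op6_distrib : ∀ a b c : Fin 6, op6 (op6 a b) c = op6 (op6 a c) (op6 b c) := by
  decide

abbrev V (m : ℕ) : Type := W (Fin 6) m

lemma DD (m : ℕ) (u : V (m + 2)) : D op6 m (D op6 (m + 1) u) = 0 := by
  have := invariance op6 op6_distrib m (fun _ _ => 1) (fun _ _ => rfl) u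
  simp only [one_smul] at this
  simp only [D, LinearMap.sum_apply, map_sum]
  exact this

lemma bb (m : ℕ) (u : V (m + 2)) : P op6 5 m (P op6 5 (m + 1) u) = 0 := by
  have := invariance op6 op6_distrib m (fun x y => if x = 5 ∧ y = 5 then 1 else 0)
    (by decide) u
  simpa [Fin.sum_univ_six] using this

lemma aa (m : ℕ) (u : V (m + 2)) : P op6 4 m (P op6 4 (m + 1) u) = 0 := by
  have := invariance op6 op6_distrib m (fun x y => if x = 4 ∧ y = 4 then 1 else 0)
    (by decide) u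
  simpa [Fin.sum_univ_six] using this

lemma ab (m : ℕ) (u : V (m + 2)) :
    P op6 5 m (P op6 4 (m + 1) u) + P op6 4 m (P op6 5 (m + 1) u) = 0 := by
  have := invariance op6 op6_distrib m
    (fun x y => if (x = 4 ∧ y = 5) ∨ (x = 5 ∧ y = 4) then 1 else 0) (by decide) u
  simpa [Fin.sum_univ_six] using this

lemma D_s (x : Fin 6) (m : ℕ) (u : V (m + 1)) :
    D op6 (m + 1) (s x (m + 1) u) = u - ∑ y, s (op6 x y) m (P op6 y m u) := by
  simp only [D, LinearMap.sum_apply, P_s, Finset.sum_sub_distrib]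
  congr 1
  rw [Finset.sum_eq_single x]
  · simp
  · intro b _ hb
    simp [Ne.symm hb]
  · simp

abbrev S (m : ℕ) : Type := V m × V m × V m

noncomputable def io (m : ℕ) : S m →ₗ[ℚ] V (m + 1) :=
  (s (1 : Fin 6) m - s 0 m).coprod ((s (2 : Fin 6) m - s 0 m).coprod (s (3 : Fin 6) m - s 0 m))

noncomputable def pr (m : ℕ) : V (m + 1) →ₗ[ℚ] S m :=
  (P op6 1 m).prod ((P op6 2 m).prod (P op6 3 m))

noncomputable def jj (m : ℕ) : V (m + 1) →ₗ[ℚ] S m :=
  (-P op6 4 m).prod ((-P op6 5 m).prod 0)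

noncomputable def dd (m : ℕ) : S (m + 1) →ₗ[ℚ] S m :=
  jj m ∘ₗ (LinearMap.snd ℚ _ _) ∘ₗ (LinearMap.snd ℚ _ _)

lemma io_apply (m : ℕ) (u : S m) : io m u =
    (s 1 m u.1 - s 0 m u.1) + ((s 2 m u.2.1 - s 0 m u.2.1) + (s 3 m u.2.2 - s 0 m u.2.2)) := rfl

lemma pr_apply (m : ℕ) (w : V (m + 1)) : pr m w = (P op6 1 m w, P op6 2 m w, P op6 3 m w) := rfl

lemma dd_apply (m : ℕ) (u : S (m + 1)) : dd m u = (-P op6 4 m u.2.2, -P op6 5 m u.2.2, 0) := rfl

lemma pr_io (m : ℕ) (u : S (m + 1)) : pr (m + 1) (io (m + 1) u) = u := by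
  obtain ⟨a, b, c⟩ := u
  simp only [pr_apply, io_apply, map_add, map_sub, P_s]
  simp [op6]

lemma D_io (m : ℕ) (u : S (m + 1)) : D op6 (m + 1) (io (m + 1) u) = io m (dd m u) := by
  obtain ⟨a, b, c⟩ := u
  simp only [dd_apply, io_apply, map_add, map_sub, D_s, Fin.sum_univ_six]
  simp [op6]
  abel

lemma homotopy (m : ℕ) (z : V (m + 1)) :
    D op6 (m + 1) (s 0 (m + 1) z) + s 0 m (D op6 m z) = z - io m (pr m z) := by
  rw [D_s]
  simp only [D, Fin.sum_univ_six, pr_apply, io_apply]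
  simp [op6]
  abel

lemma step1 (m : ℕ) :
    finrank ℚ (LinearMap.ker (D op6 (m + 2))) + finrank ℚ (LinearMap.range (dd (m + 2))) =
      finrank ℚ (LinearMap.range (D op6 (m + 3))) + finrank ℚ (LinearMap.ker (dd (m + 1))) := by
  refine homology_eq (D op6 (m + 3)) (D op6 (m + 2)) (dd (m + 2)) (dd (m + 1))
    (io (m + 3)) (io (m + 2)) (io (m + 1)) (pr (m + 2)) (s 0 (m + 3)) (s 0 (m + 2))
    (homotopy (m + 2)) (D_io (m + 2)) (D_io (m + 1)) (pr_io (m + 1)) ?_ (DD (m + 2)) ?_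
  · intro u hu
    rw [← pr_io m u, hu, map_zero]
  · intro w
    refine ⟨pr (m + 3) w, ?_⟩
    have a1 := homotopy (m + 2) (D op6 (m + 3) w)
    have a2 := congrArg (D op6 (m + 3)) (homotopy (m + 3) w)
    rw [DD, map_zero, add_zero] at a1
    rw [map_add, DD, zero_add, map_sub, a1, D_io, sub_right_inj] at a2
    have a3 := congrArg (pr (m + 2)) a2
    rwa [pr_io, pr_io] at a3

/-- common kernel of the two operators -/
noncomputable def K (m : ℕ) : Submodule ℚ (V (m + 1)) :=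
  LinearMap.ker (P op6 5 m) ⊓ LinearMap.ker (P op6 4 m)

lemma finrank_V (m : ℕ) : finrank ℚ (V m) = 6 ^ m := by
  simp

lemma step2 (m : ℕ) : finrank ℚ (LinearMap.range (dd m)) + finrank ℚ (K m) = 6 ^ (m + 1) := by
  have h := LinearMap.finrank_range_add_finrank_ker (jj m)
  have e1 : LinearMap.range (dd m) = LinearMap.range (jj m) := by
    ext v
    simp only [LinearMap.mem_range]
    constructor
    · rintro ⟨u, rfl⟩
      exact ⟨u.2.2, rfl⟩
    · rintro ⟨u, rfl⟩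
      exact ⟨(0, 0, u), rfl⟩
  have e2 : LinearMap.ker (jj m) = K m := by
    ext v
    simp [jj, K, and_comm]
  rw [e1, ← e2, h, finrank_V]

lemma step3 (m : ℕ) : finrank ℚ (LinearMap.range (dd m)) + finrank ℚ (LinearMap.ker (dd m)) =
    3 * 6 ^ (m + 1) := by
  rw [LinearMap.finrank_range_add_finrank_ker]
  simp only [finrank_prod, finrank_V]
  ring

lemma step4 (m : ℕ) : finrank ℚ (K m) + finrank ℚ (K (m + 1)) =
    finrank ℚ (LinearMap.ker (P op6 5 (m + 1))) := by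
  have h := finrank_map_add (P op6 4 (m + 1)) (LinearMap.ker (P op6 5 (m + 1)))
  have e : (LinearMap.ker (P op6 5 (m + 1))).map (P op6 4 (m + 1)) = K m := by
    ext v
    simp only [K, Submodule.mem_map, LinearMap.mem_ker, Submodule.mem_inf]
    constructor
    · rintro ⟨u, hu, rfl⟩
      refine ⟨?_, aa m u⟩
      have := ab m u
      rwa [hu, map_zero, add_zero] at this
    · rintro ⟨h5, h4⟩
      refine ⟨s 4 (m + 1) v, ?_, ?_⟩
      · rw [P_s, h5]
        simp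
      · rw [P_s, h4]
        simp
  rw [e] at h
  exact h

lemma step5 (m : ℕ) : finrank ℚ (LinearMap.ker (P op6 5 m)) +
    finrank ℚ (LinearMap.ker (P op6 5 (m + 1))) = 6 ^ (m + 2) := by
  have h := LinearMap.finrank_range_add_finrank_ker (P op6 5 (m + 1))
  have e : LinearMap.range (P op6 5 (m + 1)) = LinearMap.ker (P op6 5 m) := by
    ext v
    simp only [LinearMap.mem_range, LinearMap.mem_ker]
    constructor
    · rintro ⟨u, rfl⟩
      exact bb m u
    · intro hv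
      refine ⟨s 5 (m + 1) v, ?_⟩
      rw [P_s, hv]
      simp
  rw [e, finrank_V] at h
  exact h

lemma range_le (m : ℕ) : finrank ℚ (LinearMap.range (D op6 (m + 1))) ≤
    finrank ℚ (LinearMap.ker (D op6 m)) := by
  apply Submodule.finrank_mono
  rintro v ⟨u, rfl⟩
  exact DD m u

/-- rank growth fails in every degree `n ≥ 2` -/
theorem growth_fails (m : ℕ) :
    finrank ℚ (LinearMap.ker (D op6 (m + 3))) - finrank ℚ (LinearMap.range (D op6 (m + 4))) ≠
      6 * (finrank ℚ (LinearMap.ker (D op6 (m + 2))) -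
        finrank ℚ (LinearMap.range (D op6 (m + 3)))) := by
  intro h
  have a1 := step1 m
  have a2 : finrank ℚ (LinearMap.ker (D op6 (m + 3))) +
      finrank ℚ (LinearMap.range (dd (m + 3))) =
      finrank ℚ (LinearMap.range (D op6 (m + 4))) + finrank ℚ (LinearMap.ker (dd (m + 2))) :=
    step1 (m + 1)
  have b1 : finrank ℚ (LinearMap.range (dd (m + 1))) + finrank ℚ (K (m + 1)) = 6 ^ (m + 2) :=
    step2 (m + 1)
  have b2 : finrank ℚ (LinearMap.range (dd (m + 2))) + finrank ℚ (K (m + 2)) = 6 ^ (m + 3) :=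
    step2 (m + 2)
  have b3 : finrank ℚ (LinearMap.range (dd (m + 3))) + finrank ℚ (K (m + 3)) = 6 ^ (m + 4) :=
    step2 (m + 3)
  have c1 : finrank ℚ (LinearMap.range (dd (m + 1))) + finrank ℚ (LinearMap.ker (dd (m + 1))) =
      3 * 6 ^ (m + 2) := step3 (m + 1)
  have c2 : finrank ℚ (LinearMap.range (dd (m + 2))) + finrank ℚ (LinearMap.ker (dd (m + 2))) =
      3 * 6 ^ (m + 3) := step3 (m + 2)
  have d1 : finrank ℚ (K (m + 1)) + finrank ℚ (K (m + 2)) =
      finrank ℚ (LinearMap.ker (P op6 5 (m + 2))) := step4 (m + 1)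
  have d2 : finrank ℚ (K (m + 2)) + finrank ℚ (K (m + 3)) =
      finrank ℚ (LinearMap.ker (P op6 5 (m + 3))) := step4 (m + 2)
  have e : finrank ℚ (LinearMap.ker (P op6 5 (m + 2))) +
      finrank ℚ (LinearMap.ker (P op6 5 (m + 3))) = 6 ^ (m + 4) := step5 (m + 2)
  have f1 : finrank ℚ (LinearMap.range (D op6 (m + 3))) ≤
      finrank ℚ (LinearMap.ker (D op6 (m + 2))) := range_le (m + 2)
  have f2 : finrank ℚ (LinearMap.range (D op6 (m + 4))) ≤
      finrank ℚ (LinearMap.ker (D op6 (m + 3))) := range_le (m + 3)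
  have p3 : 6 ^ (m + 3) = 6 * 6 ^ (m + 2) := by ring
  have p4 : 6 ^ (m + 4) = 36 * 6 ^ (m + 2) := by ring
  have h7 : 7 ∣ 6 ^ (m + 4) := ⟨finrank ℚ (LinearMap.ker (P op6 5 (m + 2))), by omega⟩
  have := (Nat.Prime.dvd_of_dvd_pow (by norm_num : Nat.Prime 7) h7)
  omega

end Pool.Agent.H252Z.Shelf
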